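import Mathlib
import Pool.Agent.H28.Psi

set_option autoImplicit false

namespace Pool.Agent.Results.MP_86c288_co.TriangleFreeGap

open SimpleGraph Pool.Agent.H28.Psi

lemma exists_max_indep {V : Type*} [Finite V] (G : SimpleGraph V) :
    ∃ I : Set V, (∀ u ∈ I, ∀ v ∈ I, ¬ G.Adj u v) ∧ ∀ v, v ∉ I → ∃ w ∈ I, G.Adj v w := by
  obtain ⟨I, hI⟩ : ∃ I : Set V, Maximal (fun S : Set V => ∀ u ∈ S, ∀ v ∈ S, ¬ G.Adj u v) I := by
    obtain ⟨I, -, hI⟩ := (Set.toFinite {S : Set V | ∀ u ∈ S, ∀ v ∈ S, ¬ G.Adj u v}).exists_le_maximal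
      (a := ∅) (by simp)
    exact ⟨I, hI⟩
  have hind : ∀ u ∈ I, ∀ v ∈ I, ¬ G.Adj u v := hI.prop
  refine ⟨I, hind, ?_⟩
  intro v hv
  by_contra hcon
  push Not at hcon
  have h1 : ∀ u ∈ insert v I, ∀ w ∈ insert v I, ¬ G.Adj u w := by
    intro u hu w hw huw
    rcases hu with rfl | hu <;> rcases hw with rfl | hw
    · exact G.loopless.irrefl _ huw
    · exact hcon w hw huw
    · exact hcon u hu huw.symm
    · exact hind u hu w hw huw
  exact hv (hI.le_of_ge h1 (Set.subset_insert v I) (Set.mem_insert v I))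

lemma hasK_of_not_colorable {V : Type*} [Finite V] (k : ℕ) : ∀ (G : SimpleGraph V),
    (∀ a b d, G.Adj a b → G.Adj b d → ¬ G.Adj a d) → ¬ G.Colorable (k + 3) →
    HasK G (k + 5) := by
  induction k with
  | zero => exact fun G tf h => hasK5_of_not_colorable G tf h
  | succ k ih =>
    intro G tf h
    obtain ⟨I, hind, hdom⟩ := exists_max_indep G
    have h1 : ¬ (del G I).Colorable (k + 3) := fun h' => h (colorable_succ G I hind h')
    have h2 := ih (del G I) (fun a b d h1 h2 h3 => tf a b d h1.1 h2.1 h3.1) h1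
    exact hasK_succ G I hdom (by omega) h2

/-- A finite triangle-free graph with chromatic number `b ≥ 4` has a complete colouring, not
necessarily proper, with `b + 1` nonempty classes. -/
theorem result {V : Type*} [Finite V] (G : SimpleGraph V) (hG : G.CliqueFree 3) (b : ℕ)
    (hb : 4 ≤ b) (hchi : G.chromaticNumber = b) :
    ∃ f : V → Fin (b + 1), Function.Surjective f ∧
      ∀ i j : Fin (b + 1), i ≠ j → ∃ u v, G.Adj u v ∧ f u = i ∧ f v = j := by
  classical
  have tf : ∀ a b d, G.Adj a b → G.Adj b d → ¬ G.Adj a d := by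
    intro a b d hab hbd had
    exact hG {a, b, d} (SimpleGraph.is3Clique_triple_iff.mpr ⟨hab, had, hbd⟩)
  obtain ⟨k, rfl⟩ : ∃ k, b = k + 4 := ⟨b - 4, by omega⟩
  have h3 : ¬ G.Colorable (k + 3) := by
    intro h
    have := h.chromaticNumber_le
    rw [hchi] at this
    norm_cast at this
    omega
  obtain ⟨f, hf⟩ := hasK_of_not_colorable k G tf h3
  refine ⟨f, ?_, hf⟩
  intro i
  have : ∃ j : Fin (k + 5), i ≠ j := by
    by_cases h : i = 0
    · exact ⟨1, by rw [h]; simp⟩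
    · exact ⟨0, h⟩
  obtain ⟨j, hj⟩ := this
  obtain ⟨u, v, huv, hu, hv⟩ := hf i j hj
  exact ⟨u, hu⟩

end Pool.Agent.Results.MP_86c288_co.TriangleFreeGap
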